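import Pool.Agent.Run7.h282.PM.Iface

set_option autoImplicit false

open Finset

namespace Run7.h282.PM

theorem mulv_comm' {F : Type} [Field F] {κ : Type} [DecidableEq κ] (x x' : κ → F)
    (y : Finset κ → F) : mulv x (mulv x' y) = mulv x' (mulv x y) := by
  funext S
  simp only [mulv]
  simp only [Finset.mul_sum]
  -- both sides are sums over ordered pairs
  have h : ∀ (a b : κ → F), (∑ j ∈ S, ∑ i ∈ S.erase j, a j * (b i * y ((S.erase j).erase i))) =
      ∑ j ∈ S, ∑ i ∈ S, if i = j then 0 else a j * (b i * y ((S.erase j).erase i)) := by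
    intro a b
    refine Finset.sum_congr rfl fun j hj => ?_
    rw [← Finset.filter_ne' S j, Finset.sum_filter]
    refine Finset.sum_congr rfl fun i hi => ?_
    by_cases hij : i = j
    · simp [hij]
    · simp [hij]
  rw [h x x', h x' x, Finset.sum_comm]
  refine Finset.sum_congr rfl fun j hj => Finset.sum_congr rfl fun i hi => ?_
  by_cases hij : i = j
  · simp [hij]
  · rw [if_neg hij, if_neg (Ne.symm hij), Finset.erase_right_comm]
    ring

theorem t_BASE : S_BASE := by
  intro F _ κ _
  refine ⟨mulv_comm', ?_, ?_, ?_, ?_, ?_, ?_, ?_⟩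
  · intro d x y hy S hS
    simp only [mulv] at hS
    obtain ⟨j, hj, h⟩ := Finset.exists_ne_zero_of_sum_ne_zero hS
    have h1 := hy _ (right_ne_zero_of_mul h)
    rw [Finset.card_erase_of_mem hj] at h1
    have : 0 < S.card := Finset.card_pos.mpr ⟨j, hj⟩
    omega
  · intro S hS
    simp only [one] at hS
    by_cases h : S = ∅
    · simp [h]
    · simp [h] at hS
  · intro h
    have := congrFun h ∅
    simp [one] at this
  · intro x x' y
    funext S
    simp only [mulv, Pi.add_apply, add_mul, Finset.sum_add_distrib]
  · intro a x y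
    funext S
    simp only [mulv, Pi.smul_apply, smul_eq_mul, Finset.mul_sum, mul_assoc]
  · intro x y y'
    funext S
    simp only [mulv, Pi.add_apply, mul_add, Finset.sum_add_distrib]
  · intro a x y
    funext S
    simp only [mulv, Pi.smul_apply, smul_eq_mul, Finset.mul_sum]
    refine Finset.sum_congr rfl fun j _ => by ring

end Run7.h282.PM
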