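import Pool.Agent.Run7.h282.PM.Iface

set_option autoImplicit false

open Finset

namespace Run7.h282.PM

theorem t_EXP : S_EXP := by
  intro F _ _ κ _ _ m f
  induction m with
  | zero =>
    intro y
    simp [prodv]
  | succ m ih =>
    intro y
    rw [Function.iterate_succ_apply']
    have h1 : (A0 F κ) ((A0 F κ)^[m] f) y =
        (∑ x : κ → F, ((A0 F κ)^[m] f) (mulv x y)) / (Fintype.card F : ℝ) ^ (Fintype.card κ) := rfl
    rw [h1]
    simp_rw [ih]
    rw [← Finset.sum_div]
    have h2 : (∑ C : Fin (m + 1) → κ → F, f (prodv (m + 1) C y)) =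
        ∑ x : κ → F, ∑ C : Fin m → κ → F, f (prodv m C (mulv x y)) := by
      rw [← (Fin.consEquiv (fun _ => κ → F)).sum_comp, Fintype.sum_prod_type]
      refine Finset.sum_congr rfl fun x _ => Finset.sum_congr rfl fun C _ => ?_
      simp [prodv, Fin.consEquiv]
    rw [h2]
    simp only [q]
    rw [div_div, pow_succ]

end Run7.h282.PM
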