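import Pool.Agent.Run7.h282.PM.Iface

set_option autoImplicit false

open Finset Filter Topology

namespace Run7.h282.PM

theorem three_le_q (F : Type) [Field F] [Fintype F] (h2 : (2 : F) ≠ 0) : (3 : ℝ) ≤ q F := by
  have h1 : 1 < Fintype.card F := Fintype.one_lt_card
  have h3 : Fintype.card F ≠ 2 := by
    intro h
    apply h2
    have := FiniteField.cast_card_eq_zero F
    rw [h] at this
    exact_mod_cast this
  have : 3 ≤ Fintype.card F := by omega
  simp only [q]
  exact_mod_cast this

theorem p_tendsto (hPB : S_PB) (hDEL : S_DEL) (hNEAR : S_NEAR) (hSTAR : S_STAR) (hANA : S_ANA)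
    (F : Type) [Field F] [Fintype F] (h2 : (2 : F) ≠ 0) :
    Tendsto (fun n : ℕ => p F n (n + 1)) atTop (𝓝 0) := by
  refine hANA (q F) (p F) (three_le_q F h2) (fun m n => hPB F m n) (fun m n h => hDEL F m n h)
    (fun n N h h' => hNEAR F n N h h') (fun m k hk => hSTAR F h2 m k hk)

/-- the proportion of the `n × n` matrices with permanent `c` -/
noncomputable def prob (F : Type) [Field F] [Fintype F] (n : ℕ) (c : F) : ℝ :=
  (Nat.card {A : Matrix (Fin n) (Fin n) F // A.permanent = c} : ℝ) /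
    (Nat.card (Matrix (Fin n) (Fin n) F) : ℝ)

theorem card_matrix (F : Type) [Field F] [Fintype F] (n : ℕ) :
    (Nat.card (Matrix (Fin n) (Fin n) F) : ℝ) = (q F) ^ (n * n) := by
  have : Nat.card (Matrix (Fin n) (Fin n) F) = Fintype.card F ^ (n * n) := by
    show Nat.card (Fin n → Fin n → F) = _
    rw [Nat.card_eq_fintype_card, Fintype.card_fun, Fintype.card_fun, Fintype.card_fin, ← pow_mul]
  rw [this]
  simp only [q]
  push_cast
  rfl

theorem prob_zero_tendsto (hPB : S_PB) (hDEL : S_DEL) (hNEAR : S_NEAR) (hSTAR : S_STAR)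
    (hANA : S_ANA) (hLINK : S_LINK) (F : Type) [Field F] [Fintype F] (h2 : (2 : F) ≠ 0) :
    Tendsto (fun n : ℕ => prob F n 0) atTop (𝓝 (1 / (Nat.card F : ℝ))) := by
  rw [← tendsto_add_atTop_iff_nat 1]
  have h1 : (fun n : ℕ => prob F (n + 1) 0) = fun n : ℕ => 1 / q F + (1 - 1 / q F) * p F n (n + 1) := by
    funext n
    rw [← hLINK F n]
    simp only [prob]
    rw [card_matrix]
  rw [h1]
  have h3 : (1 / (Nat.card F : ℝ)) = 1 / q F + (1 - 1 / q F) * 0 := by
    simp only [q, Nat.card_eq_fintype_card]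
    ring
  rw [h3]
  exact tendsto_const_nhds.add ((p_tendsto hPB hDEL hNEAR hSTAR hANA F h2).const_mul _)

/-- all nonzero values have the same probability -/
theorem card_eq_of_ne_zero (F : Type) [Field F] [Fintype F] (n : ℕ) (c : F) (hc : c ≠ 0) :
    Nat.card {A : Matrix (Fin (n + 1)) (Fin (n + 1)) F // A.permanent = c} =
      Nat.card {A : Matrix (Fin (n + 1)) (Fin (n + 1)) F // A.permanent = 1} := by
  refine Nat.card_congr ⟨fun A => ⟨A.1.updateRow 0 (c⁻¹ • A.1 0), ?_⟩,
    fun A => ⟨A.1.updateRow 0 (c • A.1 0), ?_⟩, ?_, ?_⟩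
  · rw [Matrix.permanent_updateRow_smul, Matrix.updateRow_eq_self, A.2]
    exact inv_mul_cancel₀ hc
  · rw [Matrix.permanent_updateRow_smul, Matrix.updateRow_eq_self, A.2, mul_one]
  · intro A
    apply Subtype.ext
    simp [Matrix.updateRow_self, smul_smul, hc]
  · intro A
    apply Subtype.ext
    simp [Matrix.updateRow_self, smul_smul, hc]

theorem sum_prob (F : Type) [Field F] [Fintype F] (n : ℕ) : ∑ c : F, prob F n c = 1 := by
  classical
  simp only [prob]
  rw [← Finset.sum_div]
  have h : (∑ c : F, (Nat.card {A : Matrix (Fin n) (Fin n) F // A.permanent = c} : ℝ)) =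
      (Nat.card (Matrix (Fin n) (Fin n) F) : ℝ) := by
    rw [← Nat.cast_sum]
    congr 1
    simp only [Nat.card_eq_fintype_card]
    rw [← Fintype.card_sigma]
    exact Fintype.card_congr (Equiv.sigmaFiberEquiv (fun A : Matrix (Fin n) (Fin n) F => A.permanent))
  rw [h, div_self]
  rw [card_matrix]
  have : (0 : ℝ) < q F := by simp only [q]; exact_mod_cast Fintype.card_pos
  positivity

theorem prob_tendsto (hPB : S_PB) (hDEL : S_DEL) (hNEAR : S_NEAR) (hSTAR : S_STAR)
    (hANA : S_ANA) (hLINK : S_LINK) (F : Type) [Field F] [Fintype F] (h2 : (2 : F) ≠ 0) (c : F) :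
    Tendsto (fun n : ℕ => prob F n c) atTop (𝓝 (1 / (Nat.card F : ℝ))) := by
  classical
  by_cases hc : c = 0
  · rw [hc]; exact prob_zero_tendsto hPB hDEL hNEAR hSTAR hANA hLINK F h2
  have hq : (3 : ℝ) ≤ q F := three_le_q F h2
  have hcard : (Nat.card F : ℝ) = q F := by simp only [q, Nat.card_eq_fintype_card]
  have key : ∀ n : ℕ, prob F (n + 1) c = (1 - prob F (n + 1) 0) / (q F - 1) := by
    intro n
    have h1 := sum_prob F (n + 1)
    rw [← Finset.add_sum_erase _ _ (Finset.mem_univ (0 : F))] at h1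
    have h3 : ∑ d ∈ (Finset.univ : Finset F).erase 0, prob F (n + 1) d = (q F - 1) * prob F (n + 1) c := by
      have h4 : ∀ d ∈ (Finset.univ : Finset F).erase 0, prob F (n + 1) d = prob F (n + 1) c := by
        intro d hd
        have hd0 : d ≠ 0 := Finset.ne_of_mem_erase hd
        simp only [prob]
        rw [card_eq_of_ne_zero F n d hd0, card_eq_of_ne_zero F n c hc]
      rw [Finset.sum_congr rfl h4, Finset.sum_const, Finset.card_erase_of_mem (Finset.mem_univ _),
        Finset.card_univ, nsmul_eq_mul, Nat.cast_sub Fintype.card_pos]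
      simp only [q, Nat.cast_one]
    rw [h3] at h1
    have : q F - 1 ≠ 0 := by linarith
    field_simp
    linarith
  rw [← tendsto_add_atTop_iff_nat 1]
  rw [show (fun n : ℕ => prob F (n + 1) c) = fun n : ℕ => (1 - prob F (n + 1) 0) / (q F - 1) from
    funext key]
  have h5 : (1 / (Nat.card F : ℝ)) = (1 - 1 / (Nat.card F : ℝ)) / (q F - 1) := by
    rw [hcard]
    have a1 : q F - 1 ≠ 0 := by linarith
    have a2 : q F ≠ 0 := by linarith
    field_simp
  rw [h5]
  refine Tendsto.div_const (tendsto_const_nhds.sub ?_) _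
  exact (tendsto_add_atTop_iff_nat 1).mpr (prob_zero_tendsto hPB hDEL hNEAR hSTAR hANA hLINK F h2)

end Run7.h282.PM
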