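import Pool.Agent.Run7.h282.PM.Iface
import Pool.Agent.Run7.h282.PM.BASE

set_option autoImplicit false

open Finset

namespace Run7.h282.PM

/-- the linear forms killing `y` -/
def kerv {F : Type} [Field F] {κ : Type} [DecidableEq κ] (y : Finset κ → F) :
    AddSubgroup (κ → F) where
  carrier := {x | mulv x y = 0}
  zero_mem' := by
    show mulv 0 y = 0
    funext S; simp [mulv]
  add_mem' := by
    intro a b ha hb
    show mulv (a + b) y = 0
    have ha' : mulv a y = 0 := ha
    have hb' : mulv b y = 0 := hb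
    rw [(t_BASE F κ).2.2.2.2.1, ha', hb', add_zero]
  neg_mem' := by
    intro a ha
    show mulv (-a) y = 0
    have ha' : mulv a y = 0 := ha
    have := (t_BASE F κ).2.2.2.2.2.1 (-1 : F) a y
    rw [neg_one_smul, neg_one_smul, ha', neg_zero] at this
    exact this

/-- `ext S` as an additive homomorphism -/
def extHom {F : Type} [Field F] {κ : Type} [DecidableEq κ] (S : Finset κ) :
    (S → F) →+ (κ → F) where
  toFun := ext S
  map_zero' := by funext j; simp only [ext]; split_ifs <;> simp
  map_add' := by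
    intro a b
    funext j
    simp only [ext, Pi.add_apply]
    split_ifs <;> simp

theorem Aop_zf_eq {F : Type} [Field F] [Fintype F] {κ : Type} [DecidableEq κ] {ι : Type} [Fintype ι]
    [DecidableEq ι] (φ : (ι → F) → (κ → F)) (y : Finset κ → F) :
    Aop φ zf y = (Nat.card {x : ι → F // mulv (φ x) y = 0} : ℝ) / (q F) ^ (Fintype.card ι) := by
  classical
  simp only [Aop, zf, q]
  congr 1
  rw [Nat.card_eq_fintype_card, Fintype.card_subtype, Finset.sum_ite, Finset.sum_const_zero, add_zero,
    Finset.sum_const, nsmul_eq_mul, mul_one]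

theorem t_IDX : S_IDX := by
  intro F _ _ κ _ _ S y
  classical
  show Aop (fun x : κ → F => x) zf y ≤ Aop (ext S) zf y
  rw [Aop_zf_eq, Aop_zf_eq]
  set K : AddSubgroup (κ → F) := kerv y with hK
  set K' : AddSubgroup (S → F) := K.comap (extHom S) with hK'
  have e1 : Nat.card {x : κ → F // mulv x y = 0} = Nat.card K := rfl
  have e2 : Nat.card {x : S → F // mulv (ext S x) y = 0} = Nat.card K' := rfl
  rw [e1, e2]
  have i1 : Nat.card K * K.index = Nat.card (κ → F) := K.card_mul_index
  have i2 : Nat.card K' * K'.index = Nat.card (S → F) := K'.card_mul_index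
  have c1 : Nat.card (κ → F) = Fintype.card F ^ Fintype.card κ := by
    rw [Nat.card_eq_fintype_card, Fintype.card_fun]
  have c2 : Nat.card (S → F) = Fintype.card F ^ Fintype.card S := by
    rw [Nat.card_eq_fintype_card, Fintype.card_fun]
  have i3 : K'.index ≤ K.index := by
    have h : K'.index ∣ K.index := by
      rw [hK', AddSubgroup.index_comap]
      exact AddSubgroup.relIndex_dvd_index_of_normal _ _
    exact Nat.le_of_dvd (Nat.pos_of_ne_zero AddSubgroup.index_ne_zero_of_finite) h
  have hq : (0 : ℝ) < q F := by simp only [q]; exact_mod_cast Fintype.card_pos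
  have p1 : (0 : ℝ) < q F ^ Fintype.card κ := pow_pos hq _
  have p2 : (0 : ℝ) < q F ^ Fintype.card S := pow_pos hq _
  rw [div_le_div_iff₀ p1 p2]
  have r1 : (q F ^ Fintype.card κ : ℝ) = (Nat.card K : ℝ) * (K.index : ℝ) := by
    rw [c1] at i1
    simp only [q]
    exact_mod_cast i1.symm
  have r2 : (q F ^ Fintype.card S : ℝ) = (Nat.card K' : ℝ) * (K'.index : ℝ) := by
    rw [c2] at i2
    simp only [q]
    exact_mod_cast i2.symm
  rw [r1, r2]
  have i3' : (K'.index : ℝ) ≤ (K.index : ℝ) := by exact_mod_cast i3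
  have n1 : (0 : ℝ) ≤ (Nat.card K : ℝ) := Nat.cast_nonneg _
  have n2 : (0 : ℝ) ≤ (Nat.card K' : ℝ) := Nat.cast_nonneg _
  nlinarith [mul_le_mul_of_nonneg_left i3' (mul_nonneg n1 n2)]

end Run7.h282.PM
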