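import Pool.Agent.Run7.h282.PM.BASE
import Pool.Agent.Run7.h282.PM.EXP
import Pool.Agent.Run7.h282.PM.IDX
import Pool.Agent.Run7.h282.PM.FIN
import Pool.Agent.Run7.h803.PM.REIDX
import Pool.Agent.Run7.h824.PM.RES
import Pool.Agent.Run7.h313.PM.NEAR
import Pool.Agent.Run7.h354.PM.PER
import Pool.Agent.Run7.h354.PM.ANA
import Pool.Agent.Run7.h108.PM.COL
import Pool.Agent.Run7.h108.PM.LINK
import Pool.Agent.Run7.h178.PM.RKB
import Pool.Agent.Run7.h178.PM.PB
import Pool.Agent.Run7.h178.PM.DEL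
import Pool.Agent.Run7.h178.PM.LEML
import Pool.Agent.Run7.h834.PM.CHR
import Pool.Agent.Run7.h834.PM.QUAD
import Pool.Agent.Run7.h477.PM.STAR

/-! Assembly of the pieces of MP_b575e9_co: everything from G3. -/

set_option autoImplicit false

open Filter Topology

namespace Run7.h282.PM

theorem all_of_G3
    (hG3 : S_G3) (F : Type) [Field F] [Fintype F] (h2 : (2 : F) ≠ 0) (c : F) :
    Tendsto (fun n => prob F n c) atTop (𝓝 (1 / (Nat.card F : ℝ))) := by
  have hBASE : S_BASE := t_BASE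
  have hEXP : S_EXP := t_EXP
  have hIDX : S_IDX := t_IDX
  have hREIDX : S_REIDX := Run7.h803.PM.t_REIDX
  have hRES : S_RES := Run7.h824.PM.t_RES hBASE hIDX
  have hLEML : S_LEML := Run7.h178.PM.t_LEML hRES hREIDX
  have hPB : S_PB := Run7.h178.PM.t_PB
  have hDEL : S_DEL := Run7.h178.PM.t_DEL
  have hNEAR : S_NEAR := Run7.h313.PM.t_NEAR hBASE hLEML
  have hPER : S_PER := Run7.h354.PM.t_PER
  have hLINK : S_LINK := Run7.h108.PM.t_LINK hBASE hEXP hPER
  have hSTAR : S_STAR := Run7.h477.PM.t_STAR hBASE hIDX hREIDX hLEML hG3 hPB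
  exact prob_tendsto hPB hDEL hNEAR hSTAR Run7.h354.PM.t_ANA hLINK F h2 c

end Run7.h282.PM
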