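import Mathlib

/-!
# Interface: the permanent of a uniform random `n × n` matrix over `F_q`, `q` odd, vanishes with
probability `1/q + o(1)`   (MP_b575e9_co, Q1, full answer)

Notation. `Y = (Finset κ → F)` is the square-free algebra `F[e_j : j ∈ κ] / (e_j^2)`: `y S` is the
coefficient of `∏_{j ∈ S} e_j`. `mulv x y` is the product of the linear form `∑ x_j e_j` and `y`,
`prodv m C y` the product of `y` and of the `m` linear forms `C 0, ..., C (m-1)`.
`Aop φ f y` is the average of `f (φ(x) · y)` over `x`, `zf y` is the indicator of `y = 0`, and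
`p F m n` is the probability that the product of `m` uniform random linear forms in `n` variables is `0`.
The permanent of an `n × n` matrix is the value at `univ` of the product of its rows.

Outline. (1) `p F m n ≤ q^(m-n)/(q-1)` (a non-zero `y` of degree `m` is killed by at most `q^m` linear
forms). (2) `δ(m) = p(m+1) - p(m)` satisfies `δ(m+1) ≥ (1 - q^(m-n)) δ(m)`. (3) almost monotonicity
`p(N-1,N) ≤ p(N-n,N) + p(n-1,n)`. (4) STAR: restrict one row to `k+1` coordinates; if it has exactly three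
non-zero coordinates the remaining average is a quadratic Gauss sum (`q` odd) and this gains a factor `q`.
(5) analysis.

Deliver `theorem t_XXX : S_XXX` (or `theorem t_XXX (h : S_YYY) ... : S_XXX` when the doc string says
that it uses YYY) in `Pool/Agent/Run7/<you>/PM/XXX.lean`, importing `Pool.Agent.Run7.h282.PM.Iface`.
-/

set_option autoImplicit false

open Finset

namespace Run7.h282.PM

section defs
variable {F : Type} [Field F] {κ : Type} [DecidableEq κ]

/-- product of the linear form with coefficients `x` and of `y` -/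
def mulv (x : κ → F) (y : Finset κ → F) : Finset κ → F :=
  fun S => ∑ j ∈ S, x j * y (S.erase j)

/-- the unit of the square-free algebra -/
def one (F : Type) [Field F] (κ : Type) [DecidableEq κ] : Finset κ → F :=
  fun S => if S = ∅ then 1 else 0

/-- product of `y` and of the `m` linear forms `C 0, C 1, ...` -/
def prodv : (m : ℕ) → (Fin m → κ → F) → (Finset κ → F) → (Finset κ → F)
  | 0, _, y => y
  | m + 1, C, y => prodv m (fun i => C i.succ) (mulv (C 0) y)

/-- `y` is homogeneous of degree `d` -/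
def Hom (d : ℕ) (y : Finset κ → F) : Prop := ∀ S, y S ≠ 0 → S.card = d

/-- extension by zero of a function on a set `S` of variables -/
def ext (S : Finset κ) (x : S → F) : κ → F := fun j => if h : j ∈ S then x ⟨j, h⟩ else 0

open Classical in
/-- indicator of `y = 0` -/
noncomputable def zf (y : Finset κ → F) : ℝ := if y = 0 then 1 else 0

/-- average of `f (φ(x) · y)` over the `x : ι → F` -/
noncomputable def Aop [Fintype F] {ι : Type} [Fintype ι] [DecidableEq ι] (φ : (ι → F) → (κ → F))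
    (f : (Finset κ → F) → ℝ) : (Finset κ → F) → ℝ :=
  fun y => (∑ x : ι → F, f (mulv (φ x) y)) / (Fintype.card F : ℝ) ^ (Fintype.card ι)

end defs

/-- the averaging operator over all linear forms -/
noncomputable def A0 (F : Type) [Field F] [Fintype F] (κ : Type) [Fintype κ] [DecidableEq κ] :
    ((Finset κ → F) → ℝ) → ((Finset κ → F) → ℝ) := Aop (fun x : κ → F => x)

/-- probability that the product of `m` uniform random linear forms in `n` variables vanishes -/
noncomputable def p (F : Type) [Field F] [Fintype F] (m n : ℕ) : ℝ :=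
  (A0 F (Fin n))^[m] zf (one F (Fin n))

/-- `q = |F|` as a real number -/
noncomputable def q (F : Type) [Fintype F] : ℝ := (Fintype.card F : ℝ)

/-- BASE (helper282 does it). Elementary identities. -/
def S_BASE : Prop := ∀ (F : Type) [Field F] (κ : Type) [DecidableEq κ],
  (∀ (x x' : κ → F) (y : Finset κ → F), mulv x (mulv x' y) = mulv x' (mulv x y)) ∧
  (∀ (d : ℕ) (x : κ → F) (y : Finset κ → F), Hom d y → Hom (d + 1) (mulv x y)) ∧
  Hom 0 (one F κ) ∧ one F κ ≠ 0 ∧
  (∀ (x x' : κ → F) (y : Finset κ → F), mulv (x + x') y = mulv x y + mulv x' y) ∧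
  (∀ (a : F) (x : κ → F) (y : Finset κ → F), mulv (a • x) y = a • mulv x y) ∧
  (∀ (x : κ → F) (y y' : Finset κ → F), mulv x (y + y') = mulv x y + mulv x y') ∧
  (∀ (a : F) (x : κ → F) (y : Finset κ → F), mulv x (a • y) = a • mulv x y)

/-- IDX (60 lines). Restriction to the linear forms in the variables of `S` makes zero more likely.
Proof: `K = {x | mulv x y = 0}` is a subspace of `κ → F`, `K' = {x | mulv (ext S x) y = 0}` its preimage
under the linear map `ext S`. `|K| |F|^|S| ≤ |K'| |F|^|κ|` since `(S → F)/K'` embeds into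
`(κ → F)/K` (index of a preimage). -/
def S_IDX : Prop := ∀ (F : Type) [Field F] [Fintype F] (κ : Type) [Fintype κ] [DecidableEq κ]
  (S : Finset κ) (y : Finset κ → F), A0 F κ zf y ≤ Aop (ext S) zf y

/-- RES (60 lines; uses BASE and IDX). The same for `m` factors.
Proof: `A = A0`, `B = Aop (ext S)` are monotone operators (`f ≤ g → A f ≤ A g`) and they commute
(`A (B f) y = avg_x avg_x' f (x' (x y))`, commutativity of `mulv`). Induction:
`A^(m+1) z = A (A^m z) ≤ A (B^m z) = B^m (A z) ≤ B^m (B z)` by IDX. -/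
def S_RES : Prop := ∀ (F : Type) [Field F] [Fintype F] (κ : Type) [Fintype κ] [DecidableEq κ]
  (S : Finset κ) (m : ℕ) (y : Finset κ → F), (A0 F κ)^[m] zf y ≤ (Aop (ext S))^[m] zf y

/-- RKB (60 lines). A non-zero `y` of degree `d` is killed by at most `q^d` linear forms.
Proof: let `y S ≠ 0`, `|S| = d`. If `mulv x y = 0` then for every `s ∉ S` the value at `insert s S` gives
`x s * y S = - ∑_{j ∈ S} x j * y ((insert s S).erase j)`, so `x` is determined by its restriction to `S`:
the restriction map from `{x | mulv x y = 0}` to `S → F` is injective. -/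
def S_RKB : Prop := ∀ (F : Type) [Field F] [Fintype F] (κ : Type) [Fintype κ] [DecidableEq κ]
  (d : ℕ) (y : Finset κ → F), Hom d y → y ≠ 0 → A0 F κ zf y ≤ q F ^ d / q F ^ (Fintype.card κ)

/-- REIDX (60 lines). Renaming the variables by a bijection `e : κ ≃ κ'`.
Proof: `y ↦ y' = fun S => y (S.map e.symm.toEmbedding)` is a bijection compatible with `mulv`
(`mulv (x ∘ e.symm) y' = (mulv x y)'`), with `zf` and with `one`; sum over `x ↦ x ∘ e.symm`. -/
def S_REIDX : Prop := ∀ (F : Type) [Field F] [Fintype F] (κ κ' : Type) [Fintype κ] [DecidableEq κ]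
  [Fintype κ'] [DecidableEq κ'] (e : κ ≃ κ') (m : ℕ),
  (∀ y : Finset κ → F, (A0 F κ)^[m] zf y =
    (A0 F κ')^[m] zf (fun S => y (S.map e.symm.toEmbedding))) ∧
  (A0 F κ)^[m] zf (one F κ) = (A0 F κ')^[m] zf (one F κ')

/-- LEML (100 lines; uses RES, REIDX). Comparison of a non-zero element of degree `d` with the unit in
the remaining `n` variables.
Proof: let `y S' ≠ 0`, `|S'| = d`, `S = S'ᶜ`, `|S| = n`. By RES the left side is at most
`(Aop (ext S))^[m] zf y`. Put `π y : Finset S → F`, `(π y) T = y (S' ∪ T.map (Embedding.subtype _))`. Then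
`π (mulv (ext S x) y) = mulv x (π y)` for every `y` (the terms `j ∈ S'` vanish) and `zf y ≤ zf (π y)`, so by
induction `(Aop (ext S))^[m] zf y ≤ (A0 F S)^[m] zf (π y)`. Finally `π y = (y S') • one` since `y` is
homogeneous, `(A0)^[m] zf (c • u) = (A0)^[m] zf u` for `c ≠ 0`, and REIDX with `S ≃ Fin n`. -/
def S_LEML : Prop := ∀ (F : Type) [Field F] [Fintype F] (κ : Type) [Fintype κ] [DecidableEq κ]
  (d n m : ℕ) (y : Finset κ → F), Fintype.card κ = d + n → Hom d y → y ≠ 0 →
  (A0 F κ)^[m] zf y ≤ p F m n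

/-- PB (100 lines; uses BASE, RKB). Bounds for `p`.
Proof: `zf ≤ A zf ≤ 1` pointwise and `A^[m]` is monotone: `p m ≤ p (m+1)` as
`A^[m+1] zf = A^[m] (A zf)`. By RKB `A zf y ≤ zf y + q^m/q^n` for `y` homogeneous of degree `m`, and
`A^[m] f (one)` depends only on the values of `f` at homogeneous elements of degree `m`
(lemma: if `f ≤ g` on degree `m + d` then `A^[m] f ≤ A^[m] g` on degree `d`), so
`p (m+1) ≤ p m + q^m/q^n`, `p 0 = 0`; sum the geometric series. -/
def S_PB : Prop := ∀ (F : Type) [Field F] [Fintype F] (m n : ℕ),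
  0 ≤ p F m n ∧ p F m n ≤ 1 ∧ p F m n ≤ p F (m + 1) n ∧
  (m ≤ n → p F m n ≤ q F ^ m / ((q F - 1) * q F ^ n))

/-- DEL (100 lines; uses BASE, RKB). Growth of the increments.
Proof: `g = A zf - zf ≥ 0` is `0` at `0` and `κ(y) = A zf y` at `y ≠ 0`; `p (m+1) - p m = A^[m] g one`.
For `y ≠ 0` of degree `m`: `A g y = avg_x g (x y) ≥ avg_x 1[x y ≠ 0] κ(y) = (1 - κ(y)) κ(y)` since
`κ(x y) ≥ κ(y)` (if `x' y = 0` then `x' x y = 0` by commutativity), and `κ(y) ≤ q^m/q^n` by RKB. So
`A g ≥ (1 - q^m/q^n) g` on degree `m`; apply `A^[m]` (same lemma as in PB). -/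
def S_DEL : Prop := ∀ (F : Type) [Field F] [Fintype F] (m n : ℕ), m ≤ n →
  (1 - q F ^ m / q F ^ n) * (p F (m + 1) n - p F m n) ≤ p F (m + 2) n - p F (m + 1) n

/-- NEAR (50 lines; uses BASE, LEML). Almost monotonicity.
Proof: `A^[N-1] zf one = A^[N-n] (A^[n-1] zf) one` and on degree `N - n` one has
`A^[n-1] zf y ≤ zf y + p (n-1) n`: for `y = 0` the left side is `1`, for `y ≠ 0` this is LEML. -/
def S_NEAR : Prop := ∀ (F : Type) [Field F] [Fintype F] (n N : ℕ), 1 ≤ n → n ≤ N →
  p F (N - 1) N ≤ p F (N - n) N + p F (n - 1) n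

/-- EXP (50 lines). Iterated averages as averages over `Fin m → κ → F`.
Proof: induction on `m` with `Function.iterate_succ'` and `Fin.consEquiv`/`Fin.consPiProd` (sum over
`C = Fin.cons (C 0) (tail)`). -/
def S_EXP : Prop := ∀ (F : Type) [Field F] [Fintype F] (κ : Type) [Fintype κ] [DecidableEq κ]
  (m : ℕ) (f : (Finset κ → F) → ℝ) (y : Finset κ → F),
  (A0 F κ)^[m] f y = (∑ C : Fin m → κ → F, f (prodv m C y)) / (q F ^ (Fintype.card κ)) ^ m

/-- PER (100 lines). The product of `n` linear forms in `n` variables, at `univ`, is the permanent.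
Proof: prove by induction on `m`, for `C : Fin m → κ → F` and all `S` with `|S| = m`, that
`prodv m C one S` is the sum over the injective `f : Fin m → κ` with image `S` of `∏ i, C i (f i)`
(it is convenient to prove `prodv m C (mulv x y) = mulv x (prodv m C y)` first, and to split `f` into `f 0` and
the rest); for `S = univ`, `κ = Fin n` this is `Matrix.permanent` (up to transposition). -/
def S_PER : Prop := ∀ (F : Type) [Field F] (n : ℕ) (C : Fin n → Fin n → F),
  prodv n C (one F (Fin n)) univ = Matrix.permanent (Matrix.of C)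

/-- COL (150 lines; uses BASE, PER). The permanent of an `(m+2) × (m+3)` matrix `D` without the column
`a`, by rows and by columns, for the three first columns `0, 1, 2`.
Here `Y = prodv m (fun l i => D i l.succ.succ.succ) one` is the product of the last `m` columns and
`u j = fun i => D i j`.
Proof: both sides are permanents: the left side at `univ.erase 0` is
`prodv (m+2) (fun i j => D i j.succ) one univ` in the variables `Fin (m+2)` (general lemma: restriction to the
variables `≠ a`, rename by `Fin.succAbove a`: `prodv m C one (univ.map (Fin.succAboveEmb a)) =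
prodv m (fun i j => C i (a.succAbove j)) one univ`), then PER, `Matrix.permanent_transpose`, PER. -/
def S_COL : Prop := ∀ (F : Type) [Field F] (m : ℕ) (D : Fin (m + 2) → Fin (m + 3) → F),
  let Y : Finset (Fin (m + 2)) → F :=
    prodv m (fun l i => D i l.succ.succ.succ) (one F (Fin (m + 2)))
  prodv (m + 2) D (one F (Fin (m + 3))) (univ.erase 0) =
      mulv (fun i => D i 1) (mulv (fun i => D i 2) Y) univ ∧
  prodv (m + 2) D (one F (Fin (m + 3))) (univ.erase 1) =
      mulv (fun i => D i 0) (mulv (fun i => D i 2) Y) univ ∧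
  prodv (m + 2) D (one F (Fin (m + 3))) (univ.erase 2) =
      mulv (fun i => D i 0) (mulv (fun i => D i 1) Y) univ

/-- QUAD (100 lines). The Gauss sum bound.
Proof: summing over `u0` first (the form is linear in `u0`: `u0 ↦ B u0 (c1 u2 + c2 u1)`) gives
`|V| ∑_{u1,u2 : c1 u2 + c2 u1 ∈ K} ψ (c0 B u1 u2) = |V| |K| ∑_u ψ (c B u u)`, `c = - c0 c2 / c1 ≠ 0`.
`|∑_u ψ (c B u u)|² = ∑_{h,u} ψ (c (B (u+h) (u+h) - B u u)) = ∑_h ψ (c B h h) ∑_u ψ (2 c B h u) = |V| |K|`
because `2 c ≠ 0`. So the total is `|V| |K| √(|V| |K|) ≤ |V|² |K| / q` from `|K| q² ≤ |V|`.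
(`AddChar.sum_mulShift`-type facts; a sum of `ψ` of a linear functional on `ι → F` is `0` or `|V|`.) -/
def S_QUAD : Prop := ∀ (F : Type) [Field F] [Fintype F], (2 : F) ≠ 0 → ∀ (ψ : AddChar F ℂ),
  ψ.IsPrimitive → ∀ (N : ℕ) (B : (Fin N → F) →ₗ[F] (Fin N → F) →ₗ[F] F), (∀ u w, B u w = B w u) →
  (Nat.card {u : Fin N → F // B u = 0} : ℝ) * q F ^ 2 ≤ q F ^ N → ∀ c0 c1 c2 : F, c0 ≠ 0 → c1 ≠ 0 →
  c2 ≠ 0 →
  ‖∑ u0 : Fin N → F, ∑ u1 : Fin N → F, ∑ u2 : Fin N → F,
      ψ (c0 * B u1 u2 + c1 * B u0 u2 + c2 * B u0 u1)‖ ≤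
    (q F ^ N) ^ 2 * (Nat.card {u : Fin N → F // B u = 0} : ℝ) / q F

/-- CHR (80 lines). Existence of a primitive character and the dual description of `zf`.
Proof: `AddChar.FiniteField.primitiveChar`-type existence over `ℂ`. An element `y` homogeneous of degree
`N - 1` in `N` variables is determined by the values `y (univ.erase j)`, and
`mulv x y univ = ∑_j x j * y (univ.erase j)`; if `y = 0` all terms are `1`, otherwise this is a non-zero linear
functional of `x` and the sum of `ψ` over it vanishes. -/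
def S_CHR : Prop := ∀ (F : Type) [Field F] [Fintype F], ∃ ψ : AddChar F ℂ, ψ.IsPrimitive ∧
  ∀ (N : ℕ) (y : Finset (Fin (N + 1)) → F), Hom N y →
    (zf y : ℂ) = (∑ x : Fin (N + 1) → F, ψ (mulv x y univ)) / ((q F ^ (N + 1) : ℝ) : ℂ)

/-- G3 (150 lines; uses BASE, RKB, EXP, COL, QUAD, CHR). The standard case of three non-zero coordinates.
Proof: with EXP and CHR the left side is the average over `D : Fin (m+2) → Fin (m+3) → F` (`D = cons x C`)
of `ψ (prodv (m+2) D (mulv t one) univ)`, and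
`prodv (m+2) D (mulv t one) univ = mulv t (prodv (m+2) D one) univ = ∑_{j=0,1,2} t j * prodv .. (univ.erase j)`.
Write `D` as its three first columns `u0 u1 u2 : Fin (m+2) → F` and the others `E : Fin m → Fin (m+2) → F`.
By COL, for fixed `E`, with `Y = prodv m E one` and `B u w = mulv u (mulv w Y) univ` (symmetric, bilinear)
the exponent is `t0 B u1 u2 + t1 B u0 u2 + t2 B u0 u1`. If `Y = 0` the average over `u0 u1 u2` is `1`;
otherwise `B u = 0 ↔ mulv u Y = 0` (degree `m+1` in `m+2` variables), at most `q^m` such `u` (RKB), and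
QUAD bounds the average by `κ(Y)/q`, `κ(Y) = A0 zf Y`. Averaging over `E` (EXP):
`avg zf Y = p m (m+2)`, `avg κ(Y) = p (m+1) (m+2)`. -/
def S_G3 : Prop := ∀ (F : Type) [Field F] [Fintype F], (2 : F) ≠ 0 → ∀ (m : ℕ)
  (t : Fin (m + 3) → F), t 0 ≠ 0 → t 1 ≠ 0 → t 2 ≠ 0 → (∀ j : Fin (m + 3), 3 ≤ j.val → t j = 0) →
  (A0 F (Fin (m + 3)))^[m + 1] zf (mulv t (one F (Fin (m + 3)))) ≤
    p F m (m + 2) + (p F (m + 1) (m + 2) - p F m (m + 2)) / q F

/-- STAR (150 lines; uses BASE, IDX, REIDX, LEML, G3, PB). Restrict one row to `k + 1` coordinates.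
Proof: `n = m + 2`, `κ = Fin (m + 3)`, `S = {j | j.val < k + 1}`, `|S| = k + 1 ≤ m + 3`.
`p (m+2) (m+3) = A^[m+1] (A zf) one ≤ A^[m+1] (Aop (ext S) zf) one = avg_{t : S → F} g(t)`,
`g(t) = A^[m+1] (fun y => zf (mulv (ext S t) y)) one = A^[m+1] zf (mulv (ext S t) one)` (commutativity).
`g(0) = 1`; `g(t) ≤ p (m+1) (m+2)` for `t ≠ 0` by LEML with `d = 1`; if `t` has exactly three non-zero
coordinates then by REIDX (a permutation moving them to `0, 1, 2`) and G3
`g(t) ≤ p m (m+2) + (p (m+1) (m+2) - p m (m+2)) / q`. There are `C(k+1,3) (q-1)^3` such `t`. -/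
def S_STAR : Prop := ∀ (F : Type) [Field F] [Fintype F], (2 : F) ≠ 0 → ∀ (m k : ℕ), k ≤ m + 2 →
  let w : ℝ := (Nat.choose (k + 1) 3 : ℝ) * (q F - 1) ^ 3 / q F ^ (k + 1)
  p F (m + 2) (m + 3) ≤ 1 / q F ^ (k + 1) + (1 - w) * p F (m + 1) (m + 2) +
    w * (p F m (m + 2) + (p F (m + 1) (m + 2) - p F m (m + 2)) / q F)

/-- ANA (150 lines). The analysis, for abstract numbers `P m n`.
Proof: put `a n = P (n-1) n`, `b n = P (n-2) n`. By STAR (with `n = m+2`)
`w (1 - 1/q) (a n - b n) ≤ 1/q^(k+1) + a n - a (n+1)`. Sum over `n ∈ [K, K+M)`: some `n ≥ K` has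
`a n - b n ≤ (1/q^(k+1) + 1/M) / (w (1 - 1/q))`; here `1/(q^(k+1) w) = 1/(C(k+1,3) (q-1)^3) → 0` as `k → ∞`, then
`M → ∞`. So for all `η > 0`, `K` there is `n ≥ K` with `P (n-1) n - P (n-2) n ≤ η`. By DEL, for fixed `j`,
`P (n-i) n - P (n-i-1) n ≤ 2^j η` for `1 ≤ i ≤ j` (since `1 - q^m/q^n ≥ 1/2` for `m < n`), hence
`P (n-1) n ≤ P (n-j-1) n + j 2^j η ≤ q^(-j-1)/(q-1) + j 2^j η`. So `a n` is as small as we want for some
`n ≥ K`, and by NEAR `a N ≤ P (N-n) N + a n ≤ q^(-n)/(q-1) + a n` for all `N ≥ n`. -/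
def S_ANA : Prop := ∀ (q : ℝ) (P : ℕ → ℕ → ℝ), 3 ≤ q →
  (∀ m n, 0 ≤ P m n ∧ P m n ≤ 1 ∧ P m n ≤ P (m + 1) n ∧ (m ≤ n → P m n ≤ q ^ m / ((q - 1) * q ^ n))) →
  (∀ m n, m ≤ n → (1 - q ^ m / q ^ n) * (P (m + 1) n - P m n) ≤ P (m + 2) n - P (m + 1) n) →
  (∀ n N, 1 ≤ n → n ≤ N → P (N - 1) N ≤ P (N - n) N + P (n - 1) n) →
  (∀ m k : ℕ, k ≤ m + 2 →
    P (m + 2) (m + 3) ≤ 1 / q ^ (k + 1) +
      (1 - (Nat.choose (k + 1) 3 : ℝ) * (q - 1) ^ 3 / q ^ (k + 1)) * P (m + 1) (m + 2) +
      ((Nat.choose (k + 1) 3 : ℝ) * (q - 1) ^ 3 / q ^ (k + 1)) *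
        (P m (m + 2) + (P (m + 1) (m + 2) - P m (m + 2)) / q)) →
  Filter.Tendsto (fun n : ℕ => P n (n + 1)) Filter.atTop (nhds 0)

/-- LINK (100 lines; uses BASE, EXP, PER). The vanishing probability of the permanent.
Proof: with EXP, PER it is `A^[n+1] z1 one`, `z1 y = 1[y univ = 0]`, `= A^[n] (A z1) one`, and for `y`
homogeneous of degree `n` in `n + 1` variables `A z1 y = 1/q + (1 - 1/q) zf y` (`mulv x y univ =
∑_j x j * y (univ.erase j)` is a linear functional of `x`, non-zero if `y ≠ 0`, and then it vanishes on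
`q^n` vectors `x`). -/
def S_LINK : Prop := ∀ (F : Type) [Field F] [Fintype F] (n : ℕ),
  (Nat.card {A : Matrix (Fin (n + 1)) (Fin (n + 1)) F // A.permanent = 0} : ℝ) /
      (q F) ^ ((n + 1) * (n + 1)) =
    1 / q F + (1 - 1 / q F) * p F n (n + 1)

end Run7.h282.PM
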